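import Pool.Agent.Work.MP_db9399_ts.Light

/-!
# MP_db9399, TSPLIT, block FHB (helper32)
-/

set_option autoImplicit false

namespace Pool.Agent.Work.MP_db9399_ts_helper32

open Finset Classical
open Pool.Agent.Work.MP_db9399_all (nb)
open Pool.Agent.Work.MP_db9399_clj.helper75 (OO blk nB eE)
open Pool.Agent.Work.MP_db9399_ts

universe u

variable {W B : Type u} [Fintype W] [Fintype B]

set_option linter.unusedSectionVars false

theorem mem_nb {G : SimpleGraph W} {v w : W} : w ∈ nb G v ↔ G.Adj v w := by simp [nb]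

section

variable {X : Dat W B} {M : ℕ} {C ζ θ c : ℝ} {x v : W} {b : B}

theorem th_iff (hE : Env X M C ζ θ c) (hx : X.bl x = none) : X.Th.Adj x v ↔ X.G.Adj x v := by
  unfold Dat.Th
  rw [SimpleGraph.sdiff_adj]
  constructor
  · exact fun h => h.1
  · intro h
    refine ⟨h, fun h' => ?_⟩
    obtain ⟨b, hb, -⟩ := hE.bk x v h'
    rw [hx] at hb
    exact absurd hb (by simp)

theorem mem_sc : v ∈ X.sc c x ↔ X.G.Adj x v ∧ ∃ b, X.bl v = some b ∧ ¬ X.fat c x b ∧
    X.cq x ≠ X.cq v := by
  unfold Dat.sc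
  rw [Finset.mem_filter, mem_nb]

theorem mem_nf : v ∈ X.nf c x ↔ X.G.Adj x v ∧ (∃ b, X.bl v = some b ∧ ¬ X.fat c x b) ∧
    ¬ X.flH c v x := by
  unfold Dat.nf
  rw [Finset.mem_filter, mem_nb]

theorem not_fl_left {Ty : Kd → Prop} {gr : W → Fin 3} (hx : X.bl x = none) :
    ¬ X.fl Ty gr c x v := by
  rintro (h | h)
  · obtain ⟨-, h1, -⟩ := h
    obtain ⟨-, b, hb, -⟩ := mem_sc.1 h1
    rw [hx] at hb
    exact absurd hb (by simp)
  · obtain ⟨-, ⟨b, b', hb, -⟩, -⟩ := h
    rw [hx] at hb
    exact absurd hb (by simp)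

theorem fl_right {Ty : Kd → Prop} {gr : W → Fin 3} (hx : X.bl x = none) :
    X.fl Ty gr c v x ↔ X.flH c v x := by
  constructor
  · rintro (h | h)
    · exact h
    · obtain ⟨-, ⟨b, b', -, hb', -⟩, -⟩ := h
      rw [hx] at hb'
      exact absurd hb' (by simp)
  · exact fun h => Or.inl h

variable {g : ℕ} {Ty : Kd → Prop} {gr : W → Fin 3} {σ ε ε' : ℝ} {off : Fin g → W → ℝ}
  {L : W → Fin g} {w' : Fin g → Sym2 W → ℝ} {k : Fin g}

theorem flH_some (h : X.flH c v x) : ∃ b, X.bl v = some b ∧ ¬ X.fat c x b := by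
  obtain ⟨-, b, hb, hf, -⟩ := mem_sc.1 h.2.1
  exact ⟨b, hb, hf⟩

theorem flH_adj (h : X.flH c v x) : X.G.Adj x v := (mem_sc.1 h.2.1).1

theorem wt_nadj (h : ¬ X.Th.Adj x v) : X.wt Ty gr c σ ε' off L w' k x v = 0 := by
  unfold Dat.wt
  rw [if_pos h]

theorem wt_none (hx : X.bl x = none) (hv : X.bl v = none) :
    X.wt Ty gr c σ ε' off L w' k x v = 0 := by
  by_cases h1 : X.Th.Adj x v
  · have h2 : ¬ (X.fl Ty gr c x v ∨ X.fl Ty gr c v x) := by
      rintro (h2 | h2)
      · exact not_fl_left hx h2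
      · exact not_fl_left hv h2
    unfold Dat.wt
    rw [if_neg (not_not.2 h1), if_neg h2]
    simp only [hx, hv]
  · exact wt_nadj h1

theorem wt_H (hE : Env X M C ζ θ c) (hx : X.bl x = none) (h : X.flH c v x) :
    X.wt Ty gr c σ ε' off L w' k x v = w' k s(x, v) := by
  unfold Dat.wt
  rw [if_neg (not_not.2 ((th_iff hE hx).2 (flH_adj h))), if_pos (Or.inr ((fl_right hx).2 h))]

theorem wt_fat (hE : Env X M C ζ θ c) (hx : X.bl x = none) (ha : X.G.Adj x v)
    (hv : X.bl v = some b) (hf : X.fat c x b) :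
    X.wt Ty gr c σ ε' off L w' k x v =
      if X.ak Ty L k v then X.tg Ty c σ off L k x b / X.na Ty L k x b else 0 := by
  have h2 : ¬ (X.fl Ty gr c x v ∨ X.fl Ty gr c v x) := by
    rintro (h | h)
    · exact not_fl_left hx h
    · obtain ⟨b', hb', hf'⟩ := flH_some ((fl_right hx).1 h)
      rw [hv] at hb'
      cases hb'
      exact hf' hf
  unfold Dat.wt
  rw [if_neg (not_not.2 ((th_iff hE hx).2 ha)), if_neg h2]
  simp only [hx, hv]
  rw [if_pos hf]

theorem wt_nf (hE : Env X M C ζ θ c) (hx : X.bl x = none) (h : v ∈ X.nf c x) :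
    X.wt Ty gr c σ ε' off L w' k x v = σ * X.mv Ty L k v := by
  obtain ⟨ha, ⟨b, hv, hf⟩, hH⟩ := mem_nf.1 h
  have h2 : ¬ (X.fl Ty gr c x v ∨ X.fl Ty gr c v x) := by
    rintro (h | h)
    · exact not_fl_left hx h
    · exact hH ((fl_right hx).1 h)
  unfold Dat.wt
  rw [if_neg (not_not.2 ((th_iff hE hx).2 ha)), if_neg h2]
  simp only [hx, hv]
  rw [if_neg hf]

/-- the light neighbours of `x`: flexible, scattered, fat -/
theorem decomp (f : W → ℝ) (hf : ∀ v, X.bl v = none → f v = 0) :
    ∑ v ∈ nb X.G x, f v = ∑ v ∈ (nb X.G x).filter (fun v => X.flH c v x), f v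
      + ∑ v ∈ X.nf c x, f v
      + ∑ b with X.fat c x b, ∑ v ∈ (nb X.G x).filter (fun v => X.bl v = some b), f v := by
  rw [← Finset.sum_filter_add_sum_filter_not (nb X.G x) (fun v => X.flH c v x), add_assoc]
  congr 1
  rw [← Finset.sum_filter_add_sum_filter_not ((nb X.G x).filter fun v => ¬ X.flH c v x)
    (fun v => ∃ b, X.bl v = some b ∧ ¬ X.fat c x b)]
  congr 1
  · apply Finset.sum_congr _ (fun _ _ => rfl)
    ext v
    simp only [Finset.mem_filter, mem_nb, mem_nf]
    tauto
  · rw [← Finset.sum_biUnion]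
    · symm
      apply Finset.sum_subset_zero_on_sdiff
      · intro v hv
        simp only [Finset.mem_biUnion, Finset.mem_filter, Finset.mem_univ, true_and, mem_nb] at hv
        obtain ⟨b, hb, ha, hvb⟩ := hv
        simp only [Finset.mem_filter, mem_nb]
        refine ⟨⟨ha, fun h => ?_⟩, ?_⟩
        · obtain ⟨b', hb', hf'⟩ := flH_some h
          rw [hvb] at hb'
          cases hb'
          exact hf' hb
        · rintro ⟨b', hb', hf'⟩
          rw [hvb] at hb'
          cases hb'
          exact hf' hb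
      · intro v hv
        rw [Finset.mem_sdiff] at hv
        obtain ⟨h1, h2⟩ := hv
        apply hf
        by_contra hne
        obtain ⟨b, hb⟩ := Option.ne_none_iff_exists'.1 hne
        simp only [Finset.mem_filter, mem_nb] at h1
        apply h2
        simp only [Finset.mem_biUnion, Finset.mem_filter, Finset.mem_univ, true_and, mem_nb]
        refine ⟨b, ?_, h1.1.1, hb⟩
        by_contra hfat
        exact h1.2 ⟨b, hb, hfat⟩
      · intro v _
        rfl
    · intro b _ b' _ hbb'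
      simp only [Function.onFun]
      rw [Finset.disjoint_left]
      intro v hv hv'
      rw [Finset.mem_filter] at hv hv'
      rw [hv.2] at hv'
      exact hbb' (Option.some.inj hv'.2)

theorem filter_flH (hx : X.bl x = none) : (nb X.G x).filter (fun v => X.flH c v x) =
    if (X.d : ℝ) ^ (c / 4) ≤ ((X.sc c x).card : ℝ) then X.sc c x else ∅ := by
  split_ifs with h
  · ext v
    simp only [Finset.mem_filter, mem_nb]
    constructor
    · exact fun h1 => h1.2.2.1
    · exact fun h1 => ⟨(mem_sc.1 h1).1, hx, h1, h⟩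
  · apply Finset.filter_false_of_mem
    intro v _ h1
    exact h h1.2.2

theorem n_eq : X.n x b = (((nb X.G x).filter fun v => X.bl v = some b).card : ℝ) := by
  unfold Dat.n nB
  congr 2
  ext v
  simp only [Finset.mem_inter, Finset.mem_filter, blk, Finset.mem_univ, true_and]

/-- number of the light neighbours -/
theorem lg_eq (hx : X.bl x = none) : X.lg x =
    (if (X.d : ℝ) ^ (c / 4) ≤ ((X.sc c x).card : ℝ) then ((X.sc c x).card : ℝ) else 0)
      + ((X.nf c x).card : ℝ) + ∑ b with X.fat c x b, X.n x b := by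
  have h := decomp (X := X) (c := c) (x := x) (fun v => if X.bl v = none then (0 : ℝ) else 1)
    (fun v hv => by simp [hv])
  have h1 : X.lg x = ∑ v ∈ nb X.G x, (if X.bl v = none then (0 : ℝ) else 1) := by
    unfold Dat.lg
    rw [Finset.card_filter]
    push_cast
    apply Finset.sum_congr rfl
    intro v _
    by_cases h : X.bl v = none <;> simp [h]
  rw [h1, h, filter_flH hx]
  congr 1
  · congr 1
    · split_ifs with hh
      · have : ∀ v ∈ X.sc c x, (if X.bl v = none then (0 : ℝ) else 1) = 1 := by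
          intro v hv
          obtain ⟨-, b, hb, -⟩ := mem_sc.1 hv
          simp [hb]
        rw [Finset.sum_congr rfl this]
        simp
      · simp
    · have : ∀ v ∈ X.nf c x, (if X.bl v = none then (0 : ℝ) else 1) = 1 := by
        intro v hv
        obtain ⟨-, ⟨b, hb, -⟩, -⟩ := mem_nf.1 hv
        simp [hb]
      rw [Finset.sum_congr rfl this]
      simp
  · apply Finset.sum_congr rfl
    intro b _
    rw [n_eq]
    have : ∀ v ∈ (nb X.G x).filter (fun v => X.bl v = some b),
        (if X.bl v = none then (0 : ℝ) else 1) = 1 := by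
      intro v hv
      simp [(Finset.mem_filter.1 hv).2]
    rw [Finset.sum_congr rfl this]
    simp

/-- the sum of the weights at a vertex of `O` -/
theorem sum_wt (hE : Env X M C ζ θ c) (hx : X.bl x = none)
    (hna : ∀ b, X.fat c x b → X.na Ty L k x b ≠ 0) :
    ∑ v, X.wt Ty gr c σ ε' off L w' k x v =
      (if (X.d : ℝ) ^ (c / 4) ≤ ((X.sc c x).card : ℝ) then ∑ v ∈ X.sc c x, w' k s(v, x) else 0)
      + ∑ v ∈ X.nf c x, σ * X.mv Ty L k v + ∑ b with X.fat c x b, X.tg Ty c σ off L k x b := by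
  have h1 : ∑ v, X.wt Ty gr c σ ε' off L w' k x v
      = ∑ v ∈ nb X.G x, X.wt Ty gr c σ ε' off L w' k x v := by
    symm
    apply Finset.sum_subset (Finset.subset_univ _)
    intro v _ hv
    apply wt_nadj
    rw [th_iff hE hx]
    exact fun h => hv (mem_nb.2 h)
  rw [h1, decomp (c := c) _ (fun v hv => wt_none hx hv), filter_flH hx]
  congr 1
  · congr 1
    · split_ifs with hh
      · apply Finset.sum_congr rfl
        intro v hv
        rw [wt_H hE hx ⟨hx, hv, hh⟩, Sym2.eq_swap]
      · simp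
    · exact Finset.sum_congr rfl fun v hv => wt_nf hE hx hv
  · apply Finset.sum_congr rfl
    intro b hb
    have hb' : X.fat c x b := (Finset.mem_filter.1 hb).2
    have h2 : ∀ v ∈ (nb X.G x).filter (fun v => X.bl v = some b),
        X.wt Ty gr c σ ε' off L w' k x v =
        if X.ak Ty L k v then X.tg Ty c σ off L k x b / X.na Ty L k x b else 0 := by
      intro v hv
      rw [Finset.mem_filter, mem_nb] at hv
      exact wt_fat hE hx hv.1 hv.2 hb'
    rw [Finset.sum_congr rfl h2, ← Finset.sum_filter, Finset.sum_const, nsmul_eq_mul,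
      Finset.filter_filter]
    have h3 : (((nb X.G x).filter fun v => X.bl v = some b ∧ X.ak Ty L k v).card : ℝ)
        = X.na Ty L k x b := rfl
    rw [h3, mul_div_cancel₀ _ (hna b hb')]

theorem sum_tg : ∑ b with X.fat c x b, X.tg Ty c σ off L k x b =
    σ * ∑ b with X.fat c x b, X.n x b + X.fx c x * (X.psh Ty c σ off L k x / X.fx c x) := by
  have h1 : X.fx c x = ∑ b with X.fat c x b, (if X.pb c x b then X.n x b else 0) := by
    unfold Dat.fx
    rw [← Finset.sum_filter, Finset.filter_filter]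
    apply Finset.sum_congr _ (fun _ _ => rfl)
    ext b
    simp only [Finset.mem_filter, Finset.mem_univ, true_and]
    constructor
    · exact fun h => ⟨h.1, h⟩
    · exact fun h => h.2
  rw [Finset.mul_sum]
  conv_rhs => rw [h1]
  rw [Finset.sum_mul, ← Finset.sum_add_distrib]
  apply Finset.sum_congr rfl
  intro b _
  unfold Dat.tg
  rw [← h1]
  split_ifs <;> ring

end

/-- small facts on large `d` -/
theorem large (c : ℝ) (hc : 0 < c) (hc1 : c ≤ 1 / 100) (M : ℕ) : ∃ d0 : ℕ, 1 ≤ d0 ∧ ∀ d : ℕ,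
    d0 ≤ d → (M : ℝ) * (d : ℝ) ^ (c / 16) ≤ (d : ℝ) / 4 ∧ (d : ℝ) ^ (c / 4) ≤ 3 / 8 * d ∧
      (d : ℝ) ^ (-(c / 40)) < 1 / 2 := by
  have t1 : Filter.Tendsto (fun d : ℕ => (d : ℝ) ^ (c / 16 - 1)) Filter.atTop (nhds 0) := by
    have h := tendsto_rpow_neg_atTop (y := 1 - c / 16) (by linarith)
    have h' := h.comp (tendsto_natCast_atTop_atTop (R := ℝ))
    refine h'.congr (fun d => ?_)
    simp only [Function.comp]
    congr 1
    ring
  have t2 : Filter.Tendsto (fun d : ℕ => (d : ℝ) ^ (c / 4 - 1)) Filter.atTop (nhds 0) := by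
    have h := tendsto_rpow_neg_atTop (y := 1 - c / 4) (by linarith)
    have h' := h.comp (tendsto_natCast_atTop_atTop (R := ℝ))
    refine h'.congr (fun d => ?_)
    simp only [Function.comp]
    congr 1
    ring
  have t3 : Filter.Tendsto (fun d : ℕ => (d : ℝ) ^ (-(c / 40))) Filter.atTop (nhds 0) :=
    (tendsto_rpow_neg_atTop (y := c / 40) (by linarith)).comp tendsto_natCast_atTop_atTop
  have e1 : ∀ᶠ d : ℕ in Filter.atTop, (d : ℝ) ^ (c / 16 - 1) < 1 / (4 * ((M : ℝ) + 1)) :=
    t1.eventually (gt_mem_nhds (by positivity))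
  have e2 : ∀ᶠ d : ℕ in Filter.atTop, (d : ℝ) ^ (c / 4 - 1) < 3 / 8 :=
    t2.eventually (gt_mem_nhds (by norm_num))
  have e3 : ∀ᶠ d : ℕ in Filter.atTop, (d : ℝ) ^ (-(c / 40)) < 1 / 2 :=
    t3.eventually (gt_mem_nhds (by norm_num))
  obtain ⟨d0, hd0⟩ := Filter.eventually_atTop.1 (e1.and (e2.and e3))
  refine ⟨max d0 1, le_max_right _ _, fun d hd => ?_⟩
  obtain ⟨h1, h2, h3⟩ := hd0 d (le_trans (le_max_left _ _) hd)
  have hd1 : 0 < (d : ℝ) := by
    exact_mod_cast lt_of_lt_of_le Nat.zero_lt_one (le_trans (le_max_right _ _) hd)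
  refine ⟨?_, ?_, h3⟩
  · rw [Real.rpow_sub_one hd1.ne', div_lt_iff₀ hd1] at h1
    have hM : (0 : ℝ) ≤ M := Nat.cast_nonneg _
    have h4 : (M : ℝ) * (d : ℝ) ^ (c / 16) ≤ M * (1 / (4 * ((M : ℝ) + 1)) * d) :=
      mul_le_mul_of_nonneg_left h1.le hM
    refine le_trans h4 ?_
    have h5 : (M : ℝ) * (1 / (4 * ((M : ℝ) + 1)) * d) = (M / ((M : ℝ) + 1)) * (d / 4) := by
      field_simp
    rw [h5]
    have h6 : (M : ℝ) / ((M : ℝ) + 1) ≤ 1 := by
      rw [div_le_one (by linarith)]
      linarith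
    nlinarith
  · rw [Real.rpow_sub_one hd1.ne', div_lt_iff₀ hd1] at h2
    exact h2.le

section

variable {X : Dat W B} {M : ℕ} {C ζ θ c : ℝ} {x v : W} {b : B}

theorem lg_add_nO (hE : Env X M C ζ θ c) (hx : X.bl x = none) : X.lg x + X.nO x = X.d := by
  rw [← hE.reg x]
  unfold Dat.lg Dat.nO
  rw [← Finset.card_filter_add_card_filter_not (s := nb X.G x) (fun v => X.bl v ≠ none)]
  push_cast
  congr 2
  apply Finset.card_bij (fun v _ => v)
  · intro v hv
    rw [mem_nb] at hv
    rw [Finset.mem_filter, mem_nb]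
    exact ⟨hv.1, not_not.2 hv.2.2⟩
  · intro _ _ _ _ h
    exact h
  · intro v hv
    rw [Finset.mem_filter, mem_nb, not_not] at hv
    exact ⟨v, mem_nb.2 ⟨hv.1, hx, hv.2⟩, rfl⟩

/-- a vertex of type `h3` belongs to no cluster -/
theorem h3_cq (hE : Env X M C ζ θ c) (hd : 0 < X.d)
    (hM : (M : ℝ) * (X.d : ℝ) ^ (c / 16) ≤ (X.d : ℝ) / 4) (h : X.h3 c x) : X.cq x = none := by
  by_contra hne
  obtain ⟨q, hq⟩ := Option.ne_none_iff_exists'.1 hne
  have hx : X.bl x = none := h.1.1
  have h1 := hE.v0n x q hx hq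
  -- blocks of the cluster
  set Q : Finset B := univ.filter fun b => X.cb b = q with hQ
  have hQM : (Q.card : ℝ) ≤ M := by
    have : Q.card ≤ (Finset.range M).card := by
      apply Finset.card_le_card_of_injOn X.ix
      · intro b _
        exact Finset.mem_coe.2 (Finset.mem_range.2 (hE.ixM b))
      · intro b hb b' hb' hbb'
        have hb := (Finset.mem_filter.1 (Finset.mem_coe.1 hb)).2
        have hb' := (Finset.mem_filter.1 (Finset.mem_coe.1 hb')).2
        exact hE.ixi b b' (hb.trans hb'.symm) hbb'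
    rw [Finset.card_range] at this
    exact_mod_cast this
  have h2 : (((nb X.G x).filter fun v => X.bl v ≠ none ∧ X.cq v = some q).card : ℝ)
      ≤ ∑ b ∈ Q, X.n x b := by
    have h3 : (nb X.G x).filter (fun v => X.bl v ≠ none ∧ X.cq v = some q) ⊆
        Q.biUnion fun b => (nb X.G x).filter fun v => X.bl v = some b := by
      intro v hv
      rw [Finset.mem_filter] at hv
      obtain ⟨hv1, hv2, hv3⟩ := hv
      obtain ⟨b, hb⟩ := Option.ne_none_iff_exists'.1 hv2
      rw [Finset.mem_biUnion]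
      refine ⟨b, ?_, Finset.mem_filter.2 ⟨hv1, hb⟩⟩
      rw [hQ, Finset.mem_filter]
      refine ⟨Finset.mem_univ _, ?_⟩
      have := hE.cl v b hb
      rw [hv3] at this
      exact (Option.some.inj this).symm
    have h4 := le_trans (Finset.card_le_card h3) Finset.card_biUnion_le
    have h5 : ∑ b ∈ Q, X.n x b
        = ((∑ b ∈ Q, ((nb X.G x).filter fun v => X.bl v = some b).card : ℕ) : ℝ) := by
      push_cast
      exact Finset.sum_congr rfl fun b _ => n_eq
    rw [h5]
    exact_mod_cast h4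
  have h3 : ∑ b ∈ Q, X.n x b ≤ X.fx c x + Q.card * (X.d : ℝ) ^ (c / 16) := by
    rw [← Finset.sum_filter_add_sum_filter_not Q (fun b => X.fat c x b)]
    apply add_le_add
    · unfold Dat.fx
      apply Finset.sum_le_sum_of_subset_of_nonneg
      · intro b hb
        rw [Finset.mem_filter] at hb
        rw [Finset.mem_filter]
        refine ⟨Finset.mem_univ _, hb.2, Or.inr ?_⟩
        rw [hq]
        rw [hQ, Finset.mem_filter] at hb
        rw [hb.1.2]
      · intro b _ _
        rw [n_eq]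
        positivity
    · have h4 : ∀ b ∈ Q.filter (fun b => ¬ X.fat c x b), X.n x b ≤ (X.d : ℝ) ^ (c / 16) := by
        intro b hb
        have := (Finset.mem_filter.1 hb).2
        unfold Dat.fat at this
        linarith
      refine le_trans (Finset.sum_le_card_nsmul _ _ _ h4) ?_
      rw [nsmul_eq_mul]
      apply mul_le_mul_of_nonneg_right _ (by positivity)
      exact_mod_cast Finset.card_le_card (Finset.filter_subset _ _)
  have h4 : (Q.card : ℝ) * (X.d : ℝ) ^ (c / 16) ≤ (X.d : ℝ) / 4 :=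
    le_trans (mul_le_mul_of_nonneg_right hQM (by positivity)) hM
  have h5 : X.fx c x < (X.d : ℝ) / 8 := h.2
  have hd' : (0 : ℝ) < X.d := by exact_mod_cast hd
  linarith

/-- a vertex of type `h3` has many flexible edges and no other scattered ones -/
theorem h3_sc (hE : Env X M C ζ θ c) (hd : 0 < X.d)
    (hM : (M : ℝ) * (X.d : ℝ) ^ (c / 16) ≤ (X.d : ℝ) / 4)
    (h4 : (X.d : ℝ) ^ (c / 4) ≤ 3 / 8 * X.d) (h : X.h3 c x) :
    (X.d : ℝ) ^ (c / 4) ≤ ((X.sc c x).card : ℝ) ∧ X.nf c x = ∅ := by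
  have hx : X.bl x = none := h.1.1
  have hq := h3_cq hE hd hM h
  have hcq : ∀ v b, X.bl v = some b → X.cq x ≠ X.cq v := by
    intro v b hb
    rw [hq, hE.cl v b hb]
    simp
  have hfx : X.fx c x = ∑ b with X.fat c x b, X.n x b := by
    unfold Dat.fx
    apply Finset.sum_congr _ (fun _ _ => rfl)
    ext b
    simp only [Finset.mem_filter, Finset.mem_univ, true_and, Dat.pb]
    constructor
    · exact fun h => h.1
    · exact fun h => ⟨h, Or.inl hq⟩
  have h1 := lg_add_nO hE hx
  have h2 : X.nO x < (X.d : ℝ) / 2 := h.1.2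
  have h3 : X.fx c x < (X.d : ℝ) / 8 := h.2
  have h5 := lg_eq (X := X) (c := c) hx
  have hsc : (X.d : ℝ) ^ (c / 4) ≤ ((X.sc c x).card : ℝ) := by
    by_contra hcon
    rw [if_neg hcon, ← hfx] at h5
    have h6 : X.nf c x ⊆ X.sc c x := by
      intro v hv
      obtain ⟨ha, ⟨b, hb, hf⟩, -⟩ := mem_nf.1 hv
      exact mem_sc.2 ⟨ha, b, hb, hf, hcq v b hb⟩
    have h7 : ((X.nf c x).card : ℝ) ≤ ((X.sc c x).card : ℝ) := by
      exact_mod_cast Finset.card_le_card h6
    have hd' : (0 : ℝ) < X.d := by exact_mod_cast hd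
    linarith
  refine ⟨hsc, ?_⟩
  rw [Finset.eq_empty_iff_forall_notMem]
  intro v hv
  obtain ⟨ha, ⟨b, hb, hf⟩, hH⟩ := mem_nf.1 hv
  exact hH ⟨hx, mem_sc.2 ⟨ha, b, hb, hf, hcq v b hb⟩, hsc⟩

end

theorem stmt_FHB : Stmt_FHB.{u} := by
  intro g M C σ1 ε ε' c hg hC hσ1 hc hc1
  obtain ⟨d0, hd01, hd0⟩ := large c hc hc1 M
  refine ⟨d0, ?_⟩
  intro W B _ _ X Ty gr σ off L w' hd hσ hσ1' hE hO hF
  obtain ⟨hM, hs, hna⟩ := hd0 X.d hd
  have hdpos : 0 < X.d := lt_of_lt_of_le Nat.zero_lt_one (le_trans hd01 hd)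
  have hd1 : (1 : ℝ) ≤ X.d := by exact_mod_cast hdpos
  have hpow : (X.d : ℝ) ^ (-(c / 20)) ≤ (X.d : ℝ) ^ (-(c / 30)) :=
    Real.rpow_le_rpow_of_exponent_le hd1 (by linarith)
  have hpow0 : (0 : ℝ) ≤ (X.d : ℝ) ^ (-(c / 30)) := by positivity
  -- the numbers of allowed neighbours in fat pairs are not zero
  have hna' : ∀ k x b, X.bl x = none → X.fat c x b → X.na Ty L k x b ≠ 0 := by
    intro k x b hx hf
    have hn : 0 < X.n x b := lt_of_lt_of_le (by positivity) hf
    by_cases hT : Ty (X.kd b)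
    · have h1 := hF.fat k x b hx hf hT
      have h2 : (1 : ℝ) / 2 ≤ ((g : ℝ) - 1) / g := by
        have hg' : (2 : ℝ) ≤ g := by exact_mod_cast hg
        rw [div_le_div_iff₀ (by norm_num) (by linarith)]
        linarith
      have h3 := (abs_le.1 h1).1
      have h4 : (X.d : ℝ) ^ (-(c / 40)) * X.n x b < 1 / 2 * X.n x b :=
        mul_lt_mul_of_pos_right hna hn
      have h5 : 1 / 2 * X.n x b ≤ ((g : ℝ) - 1) / g * X.n x b :=
        mul_le_mul_of_nonneg_right h2 hn.le
      intro h6
      rw [h6] at h3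
      linarith
    · have h1 : X.na Ty L k x b = X.n x b := by
        rw [n_eq]
        unfold Dat.na
        congr 2
        ext v
        simp only [Finset.mem_filter, mem_nb]
        constructor
        · exact fun h => ⟨h.1, h.2.1⟩
        · intro h
          refine ⟨h.1, h.2, ?_⟩
          rintro ⟨b', hb', hT'⟩
          rw [h.2] at hb'
          cases hb'
          exact absurd hT' hT
      rw [h1]
      exact hn.ne'
  have key : ∀ k x, X.bl x = none →
      |(if (X.d : ℝ) ^ (c / 4) ≤ ((X.sc c x).card : ℝ) then ∑ v ∈ X.sc c x, w' k s(v, x) else 0)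
        - (σ * (if (X.d : ℝ) ^ (c / 4) ≤ ((X.sc c x).card : ℝ) then ((X.sc c x).card : ℝ) else 0)
          + if X.h3 c x then off k x else 0)| ≤ (X.d : ℝ) ^ (-(c / 30)) := by
    intro k x hx
    split_ifs with h1 h2 h2
    · have := hF.hub k x hx h1
      rw [if_pos h2] at this
      exact le_trans this hpow
    · have := hF.hub k x hx h1
      rw [if_neg h2] at this
      exact le_trans this hpow
    · exact absurd (h3_sc hE hdpos hM hs h2).1 h1
    · simpa using hpow0
  have hsum : ∀ k x, ∑ v ∈ X.nf c x, σ * X.mv Ty L k v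
      = σ * ((X.nf c x).card : ℝ) + ∑ v ∈ X.nf c x, σ * (X.mv Ty L k v - 1) := by
    intro k x
    rw [mul_comm σ, ← nsmul_eq_mul, ← Finset.sum_const, ← Finset.sum_add_distrib]
    apply Finset.sum_congr rfl
    intro v _
    ring
  constructor
  · intro k x hx
    have hx0 : X.bl x = none := hx.1
    rw [sum_wt hE hx0 (fun b hb => hna' k x b hx0 hb), sum_tg, lg_eq (c := c) hx0, hsum]
    have hk := key k x hx0
    by_cases h3 : X.h3 c x
    · have hnf := (h3_sc hE hdpos hM hs h3).2
      have hpsh : X.psh Ty c σ off L k x = 0 := by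
        unfold Dat.psh
        rw [if_neg]
        exact fun h => h.2 h3
      rw [if_pos h3] at hk
      rw [hpsh, hnf]
      refine le_trans (le_of_eq ?_) hk
      congr 1
      simp only [Finset.card_empty, Finset.sum_empty]
      ring
    · have hpsh : X.psh Ty c σ off L k x = off k x - ∑ v ∈ X.nf c x, σ * (X.mv Ty L k v - 1) := by
        unfold Dat.psh
        rw [if_pos ⟨hx, h3⟩]
      have hfx : X.fx c x ≠ 0 := by
        have h4 : (X.d : ℝ) / 8 ≤ X.fx c x := by
          by_contra hcon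
          exact h3 ⟨hx, not_le.1 hcon⟩
        intro h5
        rw [h5] at h4
        linarith
      rw [if_neg h3] at hk
      rw [hpsh, mul_div_cancel₀ _ hfx]
      refine le_trans (le_of_eq ?_) hk
      congr 1
      ring
  · intro k x hx
    have hx0 : X.bl x = none := hx.1
    rw [sum_wt hE hx0 (fun b hb => hna' k x b hx0 hb), sum_tg, lg_eq (c := c) hx0, hsum]
    have hk := key k x hx0
    have hfr : ¬ X.fr x := by
      intro h
      have h1 := h.2
      have h2 := hx.2
      linarith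
    have h3 : ¬ X.h3 c x := fun h => hfr h.1
    have hpsh : X.psh Ty c σ off L k x = 0 := by
      unfold Dat.psh
      rw [if_neg]
      exact fun h => hfr h.1
    rw [if_neg h3] at hk
    rw [hpsh]
    refine le_trans (le_of_eq ?_) hk
    congr 1
    ring

end Pool.Agent.Work.MP_db9399_ts_helper32
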