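import Pool.Agent.Work.MP_db9399_ts_helper32.FHB

/-!
# MP_db9399, TSPLIT, block FPT (helper32)
-/

set_option autoImplicit false

namespace Pool.Agent.Work.MP_db9399_ts_helper32

open Finset Classical
open Pool.Agent.Work.MP_db9399_all (nb)
open Pool.Agent.Work.MP_db9399_clj.helper75 (OO blk nB eE)
open Pool.Agent.Work.MP_db9399_ts

universe u

variable {W B : Type u} [Fintype W] [Fintype B]

set_option linter.unusedSectionVars false

section

variable {X : Dat W B} {M : ℕ} {C ζ θ c : ℝ} {x v y : W} {b b' : B}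
variable {g : ℕ} {Ty : Kd → Prop} {gr : W → Fin 3} {σ σ1 ε ε' : ℝ} {off : Fin g → W → ℝ}
  {L : W → Fin g} {w' : Fin g → Sym2 W → ℝ} {k : Fin g}

/-! ### symmetry -/

theorem e_eq : X.e b b' = ∑ v ∈ blk X.bl b, (((blk X.bl b').filter fun w => X.Th.Adj v w).card : ℝ)
    := by
  unfold Dat.e eE
  apply Finset.sum_congr rfl
  intro v _
  congr 2
  ext w
  simp only [Finset.mem_inter, Finset.mem_filter, mem_nb]
  tauto

theorem dcount (r : W → W → Prop) (hr : ∀ v w, r v w → r w v) (A A' : Finset W) :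
    ∑ v ∈ A, ((A'.filter fun w => r v w).card : ℝ)
      = ∑ v ∈ A', ((A.filter fun w => r v w).card : ℝ) := by
  have h := Finset.sum_card_bipartiteAbove_eq_sum_card_bipartiteBelow (s := A) (t := A') r
  have h1 : ∀ w ∈ A', (Finset.bipartiteBelow r A w) = A.filter fun v => r w v := by
    intro w _
    ext v
    simp only [Finset.bipartiteBelow, Finset.mem_filter]
    exact ⟨fun h => ⟨h.1, hr _ _ h.2⟩, fun h => ⟨h.1, hr _ _ h.2⟩⟩
  have h3 : ∑ w ∈ A', (Finset.bipartiteBelow r A w).card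
      = ∑ w ∈ A', (A.filter fun v => r w v).card :=
    Finset.sum_congr rfl fun w hw => by rw [h1 w hw]
  rw [h3] at h
  have h2 : ((∑ a ∈ A, (Finset.bipartiteAbove r A' a).card : ℕ) : ℝ)
      = ((∑ w ∈ A', (A.filter fun v => r w v).card : ℕ) : ℝ) := by rw [h]
  push_cast at h2
  exact h2

theorem e_comm : X.e b b' = X.e b' b := by
  rw [e_eq, e_eq]
  exact dcount (fun v w => X.Th.Adj v w) (fun v w h => h.symm) _ _

theorem us_comm (h : X.us Ty gr L k v y) : X.us Ty gr L k y v :=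
  ⟨h.1.symm, h.2.2.1, h.2.1, fun h1 h2 => (h.2.2.2 h2 h1).symm⟩

theorem us_iff : X.us Ty gr L k v y ↔ X.us Ty gr L k y v := ⟨us_comm, us_comm⟩

theorem eu_comm : X.eu Ty gr L k b b' = X.eu Ty gr L k b' b := by
  unfold Dat.eu
  exact dcount (fun v w => X.us Ty gr L k v w) (fun v w h => us_comm h) _ _

theorem tp_iff : X.tp c b b' ↔ X.tp c b' b := by
  unfold Dat.tp
  rw [e_comm, ne_comm]

theorem nrm_iff : X.nrm Ty c ε' b b' ↔ X.nrm Ty c ε' b' b := by
  unfold Dat.nrm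
  rw [tp_iff (b := b) (b' := b'), e_comm (b := b) (b' := b')]
  constructor
  · rintro ⟨h1, h2⟩
    refine ⟨h1.symm, h2.imp (fun h => ⟨h.1.symm, h.2⟩) fun h => ⟨h.1.symm, h.2.2.1, h.2.1, h.2.2.2⟩⟩
  · rintro ⟨h1, h2⟩
    refine ⟨h1.symm, h2.imp (fun h => ⟨h.1.symm, h.2⟩) fun h => ⟨h.1.symm, h.2.2.1, h.2.1, h.2.2.2⟩⟩

theorem zer_iff : X.zer Ty ε' b b' ↔ X.zer Ty ε' b' b := by
  unfold Dat.zer
  rw [e_comm (b := b) (b' := b')]
  constructor
  · rintro ⟨h1, h2, h3, h4, h5⟩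
    exact ⟨h1.symm, h2.symm, h4, h3, h5⟩
  · rintro ⟨h1, h2, h3, h4, h5⟩
    exact ⟨h1.symm, h2.symm, h4, h3, h5⟩

theorem eu_le_e : X.eu Ty gr L k b b' ≤ X.e b b' := by
  rw [e_eq]
  unfold Dat.eu
  apply Finset.sum_le_sum
  intro v _
  have : ((blk X.bl b').filter fun w => X.us Ty gr L k v w) ⊆
      (blk X.bl b').filter fun w => X.Th.Adj v w := by
    intro w hw
    rw [Finset.mem_filter] at hw ⊢
    exact ⟨hw.1, hw.2.1⟩
  exact_mod_cast Finset.card_le_card this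

theorem eu_nonneg : 0 ≤ X.eu Ty gr L k b b' := by
  unfold Dat.eu
  positivity

theorem mem_blk : v ∈ blk X.bl b ↔ X.bl v = some b := by
  simp only [blk, Finset.mem_filter, Finset.mem_univ, true_and]

theorem eu_pos (hv : X.bl v = some b) (hy : X.bl y = some b') (h : X.us Ty gr L k v y) :
    0 < X.eu Ty gr L k b b' := by
  unfold Dat.eu
  apply Finset.sum_pos'
  · intro v _
    positivity
  · refine ⟨v, mem_blk.2 hv, ?_⟩
    have : y ∈ (blk X.bl b').filter fun w => X.us Ty gr L k v w :=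
      Finset.mem_filter.2 ⟨mem_blk.2 hy, h⟩
    exact_mod_cast Finset.card_pos.2 ⟨y, this⟩

/-! ### values -/

theorem wt_fl (hA : X.Th.Adj v y) (hf : X.fl Ty gr c v y ∨ X.fl Ty gr c y v) :
    X.wt Ty gr c σ ε' off L w' k v y = w' k s(v, y) := by
  unfold Dat.wt
  rw [if_neg (not_not.2 hA), if_pos hf]

theorem wt_nn (hv : X.bl v = none) (hy : X.bl y = none) :
    X.wt Ty gr c σ ε' off L w' k v y = 0 := wt_none hv hy

theorem wt_on (hA : X.Th.Adj v y) (hf : ¬ (X.fl Ty gr c v y ∨ X.fl Ty gr c y v))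
    (hv : X.bl v = none) (hy : X.bl y = some b) :
    X.wt Ty gr c σ ε' off L w' k v y = if X.fat c v b then
        (if X.ak Ty L k y then X.tg Ty c σ off L k v b / X.na Ty L k v b else 0)
        else σ * X.mv Ty L k y := by
  unfold Dat.wt
  rw [if_neg (not_not.2 hA), if_neg hf]
  simp only [hv, hy]

theorem wt_no (hA : X.Th.Adj v y) (hf : ¬ (X.fl Ty gr c v y ∨ X.fl Ty gr c y v))
    (hv : X.bl v = some b) (hy : X.bl y = none) :
    X.wt Ty gr c σ ε' off L w' k v y = if X.fat c y b then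
        (if X.ak Ty L k v then X.tg Ty c σ off L k y b / X.na Ty L k y b else 0)
        else σ * X.mv Ty L k v := by
  unfold Dat.wt
  rw [if_neg (not_not.2 hA), if_neg hf]
  simp only [hv, hy]

theorem wt_ll (hA : X.Th.Adj v y) (hf : ¬ (X.fl Ty gr c v y ∨ X.fl Ty gr c y v))
    (hv : X.bl v = some b) (hy : X.bl y = some b') :
    X.wt Ty gr c σ ε' off L w' k v y = if X.nrm Ty c ε' b b' then
        (if X.us Ty gr L k v y then σ * X.e b b' / X.eu Ty gr L k b b' else 0)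
        else if X.zer Ty ε' b b' then 0 else if X.tp c b b' ∧ (X.kd b = Kd.S ∨ X.kd b' = Kd.S)
          then 0 else if X.kd b = Kd.S ∨ X.kd b' = Kd.S then σ * X.mv Ty L k v * X.mv Ty L k y
          else if X.ak Ty L k v ∧ X.ak Ty L k y then σ else 0 := by
  unfold Dat.wt
  rw [if_neg (not_not.2 hA), if_neg hf]
  simp only [hv, hy]

theorem wt_symm : X.wt Ty gr c σ ε' off L w' k v y = X.wt Ty gr c σ ε' off L w' k y v := by
  by_cases hA : X.Th.Adj v y
  swap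
  · rw [wt_nadj hA, wt_nadj fun h => hA h.symm]
  by_cases hf : X.fl Ty gr c v y ∨ X.fl Ty gr c y v
  · rw [wt_fl hA hf, wt_fl hA.symm hf.symm, Sym2.eq_swap]
  have hf' : ¬ (X.fl Ty gr c y v ∨ X.fl Ty gr c v y) := fun h => hf h.symm
  rcases hv : X.bl v with _ | b <;> rcases hy : X.bl y with _ | b'
  · rw [wt_none hv hy, wt_none hy hv]
  · rw [wt_on hA hf hv hy, wt_no hA.symm hf' hy hv]
  · rw [wt_no hA hf hv hy, wt_on hA.symm hf' hy hv]
  · rw [wt_ll hA hf hv hy, wt_ll hA.symm hf' hy hv]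
    have e1 : X.nrm Ty c ε' b b' = X.nrm Ty c ε' b' b := propext nrm_iff
    have e2 : X.us Ty gr L k v y = X.us Ty gr L k y v := propext us_iff
    have e3 : X.zer Ty ε' b b' = X.zer Ty ε' b' b := propext zer_iff
    have e4 : X.tp c b b' = X.tp c b' b := propext tp_iff
    have e5 : (X.kd b = Kd.S ∨ X.kd b' = Kd.S) = (X.kd b' = Kd.S ∨ X.kd b = Kd.S) :=
      propext or_comm
    have e6 : (X.ak Ty L k v ∧ X.ak Ty L k y) = (X.ak Ty L k y ∧ X.ak Ty L k v) :=
      propext and_comm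
    have e7 : σ * X.mv Ty L k v * X.mv Ty L k y = σ * X.mv Ty L k y * X.mv Ty L k v := by ring
    simp only [e1, e2, e3, e4, e5, e6, e7, e_comm (X := X) (b := b) (b' := b'),
      eu_comm (X := X) (b := b) (b' := b')]

/-! ### the factors -/

theorem mv_nty (h : ¬ X.ty Ty v) : X.mv Ty L k v = 1 := by
  unfold Dat.mv mu
  rw [if_neg]
  simpa using h

theorem mv_ty (h : X.ty Ty v) (hL : L v ≠ k) : X.mv Ty L k v = (g : ℝ) / (g - 1) := by
  unfold Dat.mv mu
  rw [if_pos (by simpa using h), if_neg hL]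

theorem mv_zero (h : X.ty Ty v) (hL : L v = k) : X.mv Ty L k v = 0 := by
  unfold Dat.mv mu
  rw [if_pos (by simpa using h), if_pos hL]

theorem gam (hg : 2 ≤ g) : 1 ≤ (g : ℝ) / (g - 1) ∧ (g : ℝ) / (g - 1) ≤ 2 := by
  have h : (2 : ℝ) ≤ g := by exact_mod_cast hg
  constructor
  · rw [le_div_iff₀ (by linarith)]
    linarith
  · rw [div_le_iff₀ (by linarith)]
    linarith

theorem mv_nonneg (hg : 2 ≤ g) : 0 ≤ X.mv Ty L k v := by
  by_cases h : X.ty Ty v
  · by_cases hL : L v = k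
    · rw [mv_zero h hL]
    · rw [mv_ty h hL]
      linarith [(gam hg).1]
  · rw [mv_nty h]
    norm_num

theorem mv_le (hg : 2 ≤ g) : X.mv Ty L k v ≤ (g : ℝ) / (g - 1) := by
  by_cases h : X.ty Ty v
  · by_cases hL : L v = k
    · rw [mv_zero h hL]
      linarith [(gam hg).1]
    · rw [mv_ty h hL]
  · rw [mv_nty h]
    exact (gam hg).1

theorem one_le_mv (hg : 2 ≤ g) (ha : X.ak Ty L k v) : 1 ≤ X.mv Ty L k v := by
  by_cases h : X.ty Ty v
  · rw [mv_ty h (ha h)]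
    exact (gam hg).1
  · rw [mv_nty h]

theorem bas_pair : X.bas Ty σ s(v, y) = σ * (if X.ty Ty v ∧ X.ty Ty y then 3 / 2 else 1) := by
  unfold Dat.bas
  have : (∀ u ∈ s(v, y), X.ty Ty u) = (X.ty Ty v ∧ X.ty Ty y) := by
    apply propext
    constructor
    · intro h
      exact ⟨h v (Sym2.mem_mk_left _ _), h y (Sym2.mem_mk_right _ _)⟩
    · rintro ⟨h1, h2⟩ u hu
      rcases Sym2.mem_iff.1 hu with rfl | rfl
      · exact h1
      · exact h2
  simp only [this]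

theorem ty_bl (h : X.ty Ty v) : X.bl v ≠ none := by
  obtain ⟨b, hb, -⟩ := h
  rw [hb]
  simp

theorem ty_iff (hv : X.bl v = some b) : X.ty Ty v ↔ Ty (X.kd b) := by
  constructor
  · rintro ⟨b', hb', h⟩
    rw [hv] at hb'
    cases hb'
    exact h
  · exact fun h => ⟨b, hv, h⟩

/-! ### large degrees -/

/-- small facts on large `d` -/
structure Num (d : ℕ) (c σ1 : ℝ) : Prop where
  d1 : (1 : ℝ) ≤ d
  n1 : (d : ℝ) ^ (-(c / 60)) ≤ 1 / 8
  n2 : (d : ℝ) ^ (-(c / 40)) ≤ (d : ℝ) ^ (-(c / 60)) / 8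
  n3 : (d : ℝ) ^ (-(c / 25)) ≤ (d : ℝ) ^ (-(c / 60)) / 8
  n4 : 2 * (d : ℝ) ^ (1 / 2 : ℝ) ≤ σ1 * ((d : ℝ) ^ (-(c / 60)) / 8) * ((d : ℝ) / 8)

theorem tend (y : ℝ) (hy : 0 < y) :
    Filter.Tendsto (fun d : ℕ => (d : ℝ) ^ (-y)) Filter.atTop (nhds 0) :=
  (tendsto_rpow_neg_atTop hy).comp tendsto_natCast_atTop_atTop

theorem num_large (c σ1 : ℝ) (hc : 0 < c) (hc1 : c ≤ 1 / 100) (hσ : 0 < σ1) :
    ∃ d0 : ℕ, ∀ d : ℕ, d0 ≤ d → Num d c σ1 := by
  have e1 : ∀ᶠ d : ℕ in Filter.atTop, (d : ℝ) ^ (-(c / 60)) < 1 / 8 :=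
    (tend (c / 60) (by linarith)).eventually (gt_mem_nhds (by norm_num))
  have e2 : ∀ᶠ d : ℕ in Filter.atTop, (d : ℝ) ^ (-(c / 120)) < 1 / 8 :=
    (tend (c / 120) (by linarith)).eventually (gt_mem_nhds (by norm_num))
  have e4 : ∀ᶠ d : ℕ in Filter.atTop, (d : ℝ) ^ (-(1 / 2 - c / 60)) < σ1 / 128 :=
    (tend (1 / 2 - c / 60) (by linarith)).eventually (gt_mem_nhds (by positivity))
  obtain ⟨d0, hd0⟩ := Filter.eventually_atTop.1 (e1.and (e2.and e4))
  refine ⟨max d0 1, fun d hd => ?_⟩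
  obtain ⟨h1, h2, h4⟩ := hd0 d (le_trans (le_max_left _ _) hd)
  have hd1 : (1 : ℝ) ≤ d := by exact_mod_cast le_trans (le_max_right _ _) hd
  have hd0' : (0 : ℝ) < d := by linarith
  have hpos : (0 : ℝ) < (d : ℝ) ^ (-(c / 60)) := Real.rpow_pos_of_pos hd0' _
  have h5 : (d : ℝ) ^ (-(c / 40)) ≤ (d : ℝ) ^ (-(c / 60)) / 8 := by
    have : (d : ℝ) ^ (-(c / 40)) = (d : ℝ) ^ (-(c / 60)) * (d : ℝ) ^ (-(c / 120)) := by
      rw [← Real.rpow_add hd0']
      congr 1
      ring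
    rw [this]
    nlinarith
  refine ⟨hd1, h1.le, h5, le_trans (Real.rpow_le_rpow_of_exponent_le hd1 (by linarith)) h5, ?_⟩
  have h6 : (d : ℝ) ^ (1 / 2 : ℝ) = (d : ℝ) ^ (-(1 / 2 - c / 60)) * ((d : ℝ) ^ (-(c / 60)) * d) := by
    rw [← Real.rpow_add_one hd0'.ne', ← Real.rpow_add hd0']
    congr 1
    ring
  rw [h6]
  have h7 : 0 < (d : ℝ) ^ (-(c / 60)) * d := mul_pos hpos hd0'
  nlinarith [mul_le_mul_of_nonneg_right h4.le h7.le]

/-! ### pointwise properties -/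

/-- the properties of the weight `r` of the pair `v y` -/
structure Q (X : Dat W B) (Ty : Kd → Prop) (gr : W → Fin 3) (c σ : ℝ) (L : W → Fin g) (k : Fin g)
    (v y : W) (r : ℝ) : Prop where
  nn : 0 ≤ r
  z1 : ¬ X.ak Ty L k v → r = 0
  z2 : ¬ X.ak Ty L k y → r = 0
  a0 : ¬ X.ty Ty v → ¬ X.ty Ty y → r ≤ σ * (1 + (X.d : ℝ) ^ (-(c / 60)))
  a1 : X.ty Ty v → ¬ X.ty Ty y → r ≤ (g : ℝ) / (g - 1) * σ * (1 + (X.d : ℝ) ^ (-(c / 60)))
  a1' : ¬ X.ty Ty v → X.ty Ty y → r ≤ (g : ℝ) / (g - 1) * σ * (1 + (X.d : ℝ) ^ (-(c / 60)))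
  a2 : X.ty Ty v → X.ty Ty y → r ≤ 40 * σ
  a3 : X.ty Ty v → X.ty Ty y → X.rw v = none → X.rw y = none → r ≤ σ
  l1 : X.ak Ty L k v → X.ak Ty L k y → ¬ (X.ty Ty v ∧ X.ty Ty y) → σ / 2 ≤ r
  l2 : ∀ b b', X.bl v = some b → X.bl y = some b' → X.ak Ty L k v → X.ak Ty L k y → gr v ≠ gr y →
    (X.cb b = X.cb b' → (X.d : ℝ) ≤ X.e b b') → σ / 2 ≤ r

theorem Q.symm {r : ℝ} (h : Q X Ty gr c σ L k v y r) : Q X Ty gr c σ L k y v r :=
  ⟨h.nn, h.z2, h.z1, fun h1 h2 => h.a0 h2 h1, fun h1 h2 => h.a1' h2 h1, fun h1 h2 => h.a1 h2 h1,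
    fun h1 h2 => h.a2 h2 h1, fun h1 h2 h3 h4 => h.a3 h2 h1 h4 h3,
    fun h1 h2 h3 => h.l1 h2 h1 fun h4 => h3 h4.symm,
    fun b b' h1 h2 h3 h4 h5 h6 => h.l2 b' b h2 h1 h4 h3 h5.symm fun h7 => by
      rw [e_comm]
      exact h6 h7.symm⟩

theorem rw_none (hv : X.bl v = some b) (h : X.rw v = none) : X.kd b ≠ Kd.S := by
  intro hS
  unfold Dat.rw at h
  rw [hv] at h
  simp [hS] at h

theorem ak_nty (h : ¬ X.ty Ty v) : X.ak Ty L k v := fun h1 => absurd h1 h

theorem mv_nak (h : ¬ X.ak Ty L k v) : X.mv Ty L k v = 0 := by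
  unfold Dat.ak at h
  push Not at h
  exact mv_zero h.1 h.2

/-- the flexible edges -/
theorem Q_fl (hN : Num X.d c σ1) (hg : 2 ≤ g) (hσ : 0 < σ) (h : X.fl Ty gr c v y)
    {r : ℝ} (hr : |r - X.bas Ty σ s(v, y) * (X.mv Ty L k v * X.mv Ty L k y)| ≤
      (X.d : ℝ) ^ (-(c / 25)) * (X.bas Ty σ s(v, y) * (X.mv Ty L k v * X.mv Ty L k y))) :
    Q X Ty gr c σ L k v y r := by
  have hδ0 : (0 : ℝ) ≤ (X.d : ℝ) ^ (-(c / 60)) := by positivity
  have hδ1 := hN.n1
  have hτ := hN.n3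
  set δ := (X.d : ℝ) ^ (-(c / 60)) with hδ
  set τ := (X.d : ℝ) ^ (-(c / 25)) with hτ'
  set mv1 := X.mv Ty L k v with hm1
  set mv2 := X.mv Ty L k y with hm2
  have m1 : 0 ≤ mv1 := mv_nonneg hg
  have m2 : 0 ≤ mv2 := mv_nonneg hg
  have m1' : mv1 ≤ (g : ℝ) / (g - 1) := mv_le hg
  have m2' : mv2 ≤ (g : ℝ) / (g - 1) := mv_le hg
  obtain ⟨γ1, γ2⟩ := gam hg
  set γ := (g : ℝ) / (g - 1) with hγ
  have mm : 0 ≤ mv1 * mv2 := mul_nonneg m1 m2
  rw [bas_pair] at hr
  have key : ∀ s : ℝ, 1 ≤ s → (σ * s * (mv1 * mv2)) * (1 - δ / 8) ≤ (σ * s * (mv1 * mv2)) - τ * (σ * s * (mv1 * mv2)) := by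
    intro s hs
    have : 0 ≤ σ * s * (mv1 * mv2) := by positivity
    nlinarith
  have key2 : ∀ s : ℝ, 1 ≤ s → (σ * s * (mv1 * mv2)) + τ * (σ * s * (mv1 * mv2)) ≤ (σ * s * (mv1 * mv2)) * (1 + δ / 8) := by
    intro s hs
    have : 0 ≤ σ * s * (mv1 * mv2) := by positivity
    nlinarith
  have hs1 : (1 : ℝ) ≤ (if X.ty Ty v ∧ X.ty Ty y then 3 / 2 else 1) := by
    split_ifs <;> norm_num
  have hs2 : (if X.ty Ty v ∧ X.ty Ty y then (3 : ℝ) / 2 else 1) ≤ 3 / 2 := by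
    split_ifs <;> norm_num
  obtain ⟨hr1, hr2⟩ := abs_le.1 hr
  have lo := key _ hs1
  have up := key2 _ hs1
  have hlo : σ * (if X.ty Ty v ∧ X.ty Ty y then (3 : ℝ) / 2 else 1) * (mv1 * mv2) * (1 - δ / 8) ≤ r := by
    linarith
  have hup : r ≤ σ * (if X.ty Ty v ∧ X.ty Ty y then (3 : ℝ) / 2 else 1) * (mv1 * mv2) * (1 + δ / 8) := by
    linarith
  set s := (if X.ty Ty v ∧ X.ty Ty y then (3 : ℝ) / 2 else 1) with hs
  have hp0 : 0 ≤ σ * s * (mv1 * mv2) := by positivity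
  have hlow : X.ak Ty L k v → X.ak Ty L k y → σ / 2 ≤ r := by
    intro h1 h2
    have a1 : 1 ≤ mv1 := one_le_mv hg h1
    have a2 : 1 ≤ mv2 := one_le_mv hg h2
    have a3 : 1 ≤ mv1 * mv2 := one_le_mul_of_one_le_of_one_le a1 a2
    have a4 : 1 ≤ s * (mv1 * mv2) := one_le_mul_of_one_le_of_one_le hs1 a3
    have a5 : σ ≤ σ * s * (mv1 * mv2) := by nlinarith
    nlinarith
  have hz : mv1 * mv2 = 0 → r = 0 := by
    intro h0
    rw [h0, mul_zero, zero_mul] at hlo hup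
    linarith
  refine ⟨?_, ?_, ?_, ?_, ?_, ?_, ?_, ?_, fun h1 h2 _ => hlow h1 h2,
    fun b b' _ _ h1 h2 _ _ => hlow h1 h2⟩
  · nlinarith
  · intro h1
    apply hz
    rw [hm1, mv_nak h1, zero_mul]
  · intro h1
    apply hz
    rw [hm2, mv_nak h1, mul_zero]
  · intro h1 h2
    have e1 : mv1 = 1 := mv_nty h1
    have e2 : mv2 = 1 := mv_nty h2
    have e3 : s = 1 := by rw [hs, if_neg (fun h => h1 h.1)]
    rw [e1, e2, e3] at hup
    nlinarith
  · intro h1 h2
    have e2 : mv2 = 1 := mv_nty h2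
    have e3 : s = 1 := by rw [hs, if_neg (fun h => h2 h.2)]
    rw [e2, e3] at hup
    have : σ * mv1 ≤ γ * σ := by nlinarith
    have h5 : 0 ≤ σ * mv1 := by positivity
    nlinarith
  · intro h1 h2
    have e2 : mv1 = 1 := mv_nty h1
    have e3 : s = 1 := by rw [hs, if_neg (fun h => h1 h.1)]
    rw [e2, e3] at hup
    have : σ * mv2 ≤ γ * σ := by nlinarith
    have h5 : 0 ≤ σ * mv2 := by positivity
    nlinarith
  · intro _ _
    have a1 : mv1 * mv2 ≤ 4 := by nlinarith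
    have a2 : s * (mv1 * mv2) ≤ 6 := by nlinarith
    have a3 : σ * s * (mv1 * mv2) ≤ 6 * σ := by nlinarith
    nlinarith
  · intro h1 h2 h3 h4
    exfalso
    rcases h with h | h
    · exact ty_bl h2 h.1
    · obtain ⟨-, ⟨b, b', hb, hb', -, hS⟩, -⟩ := h
      rcases hS with hS | hS
      · exact rw_none hb h3 hS
      · exact rw_none hb' h4 hS

/-! ### fat pairs -/

theorem tg_bd {x : W} (hN : Num X.d c σ1) (hσ1 : 0 < σ1) (hσ : σ1 ≤ σ) (hσ' : σ ≤ 1)
    (hx : X.bl x = none) (hO : OffH X c ε (off k)) (hF : LabF X Ty gr c σ ε ε' off L w') :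
    X.n x b * (σ * (1 - (X.d : ℝ) ^ (-(c / 60)) / 8)) ≤ X.tg Ty c σ off L k x b ∧
      X.tg Ty c σ off L k x b ≤ X.n x b * (σ * (1 + (X.d : ℝ) ^ (-(c / 60)) / 8)) := by
  have hδ0 : (0 : ℝ) ≤ (X.d : ℝ) ^ (-(c / 60)) := by positivity
  have hn4 := hN.n4
  have hd1 := hN.d1
  set δ := (X.d : ℝ) ^ (-(c / 60)) with hδ
  have hn : 0 ≤ X.n x b := by
    rw [n_eq]
    positivity
  have key : |if X.pb c x b then X.psh Ty c σ off L k x / X.fx c x else 0| ≤ σ * (δ / 8) := by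
    split_ifs with hpb
    swap
    · rw [abs_zero]
      have : 0 < σ := by linarith
      positivity
    by_cases h : X.fr x ∧ ¬ X.h3 c x
    swap
    · have : X.psh Ty c σ off L k x = 0 := by
        unfold Dat.psh
        rw [if_neg h]
      rw [this, zero_div, abs_zero]
      have : 0 < σ := by linarith
      positivity
    have hfx : (X.d : ℝ) / 8 ≤ X.fx c x := by
      by_contra hcon
      exact h.2 ⟨h.1, not_le.1 hcon⟩
    have hfx0 : 0 < X.fx c x := by linarith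
    have hpsh : |X.psh Ty c σ off L k x| ≤ 2 * (X.d : ℝ) ^ (1 / 2 : ℝ) := by
      unfold Dat.psh
      rw [if_pos h, ← Finset.mul_sum]
      have h1 := hO.bd x
      have h2 := hF.ns k x hx
      have h3 : (X.d : ℝ) ^ (1 / 6 : ℝ) ≤ (X.d : ℝ) ^ (1 / 2 : ℝ) :=
        Real.rpow_le_rpow_of_exponent_le hd1 (by norm_num)
      have h4 : |σ * ∑ v ∈ X.nf c x, (X.mv Ty L k v - 1)| ≤ (X.d : ℝ) ^ (1 / 6 : ℝ) := by
        rw [abs_mul, abs_of_nonneg (by linarith : (0 : ℝ) ≤ σ)]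
        calc σ * |∑ v ∈ X.nf c x, (X.mv Ty L k v - 1)|
            ≤ 1 * |∑ v ∈ X.nf c x, (X.mv Ty L k v - 1)| :=
              mul_le_mul_of_nonneg_right hσ' (abs_nonneg _)
          _ ≤ _ := by rw [one_mul]; exact h2
      have h5 := abs_sub (off k x) (σ * ∑ v ∈ X.nf c x, (X.mv Ty L k v - 1))
      linarith
    rw [abs_div, abs_of_pos hfx0, div_le_iff₀ hfx0]
    refine le_trans hpsh (le_trans hn4 ?_)
    have h6 : σ1 * (δ / 8) ≤ σ * (δ / 8) := mul_le_mul_of_nonneg_right hσ (by positivity)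
    have h7 : 0 ≤ σ1 * (δ / 8) := by positivity
    exact mul_le_mul h6 hfx (by positivity) (by linarith)
  obtain ⟨k1, k2⟩ := abs_le.1 key
  unfold Dat.tg
  constructor
  · apply mul_le_mul_of_nonneg_left _ hn
    linarith
  · apply mul_le_mul_of_nonneg_left _ hn
    linarith

theorem na_nty {x : W} (h : ¬ Ty (X.kd b)) : X.na Ty L k x b = X.n x b := by
  rw [n_eq]
  unfold Dat.na
  congr 2
  ext v
  simp only [Finset.mem_filter, mem_nb]
  constructor
  · exact fun h => ⟨h.1, h.2.1⟩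
  · intro h1
    refine ⟨h1.1, h1.2, ak_nty ?_⟩
    rw [ty_iff h1.2]
    exact h

theorem na_le {x : W} : X.na Ty L k x b ≤ X.n x b := by
  rw [n_eq]
  unfold Dat.na
  have : (nb X.G x).filter (fun v => X.bl v = some b ∧ X.ak Ty L k v) ⊆
      (nb X.G x).filter fun v => X.bl v = some b := by
    intro v hv
    rw [Finset.mem_filter] at hv ⊢
    exact ⟨hv.1, hv.2.1⟩
  exact_mod_cast Finset.card_le_card this

/-- the upper bound at typed vertices -/
theorem ub (hg : 2 ≤ g) {δ κ n na T : ℝ} (hσ : 0 < σ) (hδ0 : 0 ≤ δ) (hδ1 : δ ≤ 1 / 8)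
    (hκ : κ ≤ δ / 8) (hn : 0 < n) (hna : |na - ((g : ℝ) - 1) / g * n| ≤ κ * n)
    (hT : T ≤ n * (σ * (1 + δ / 8))) : T / na ≤ (g : ℝ) / (g - 1) * σ * (1 + δ) := by
  have hg' : (2 : ℝ) ≤ g := by exact_mod_cast hg
  have hg1 : (0 : ℝ) < (g : ℝ) - 1 := by linarith
  obtain ⟨γ1, γ2⟩ := gam hg
  have hinv : ((g : ℝ) - 1) / g * ((g : ℝ) / (g - 1)) = 1 := by
    field_simp
  set γ := (g : ℝ) / (g - 1) with hγ
  set ρ := ((g : ℝ) - 1) / g with hρ
  have hρ0 : 0 < ρ := by positivity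
  have h1 : (ρ - δ / 8) * n ≤ na := by
    have := (abs_le.1 hna).1
    nlinarith
  have hρ1 : 1 / 2 ≤ ρ := by
    rw [hρ, div_le_div_iff₀ (by norm_num) (by linarith)]
    linarith
  have h2 : 0 < (ρ - δ / 8) * n := mul_pos (by linarith) hn
  have hna0 : 0 < na := lt_of_lt_of_le h2 h1
  rw [div_le_iff₀ hna0]
  have h3 : γ * σ * (1 + δ) * ((ρ - δ / 8) * n) ≤ γ * σ * (1 + δ) * na :=
    mul_le_mul_of_nonneg_left h1 (by positivity)
  refine le_trans hT (le_trans ?_ h3)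
  have h4 : 1 + δ / 8 ≤ γ * (1 + δ) * (ρ - δ / 8) := by
    have h5 : γ * (1 + δ) * (ρ - δ / 8) = (1 + δ) * (ρ * γ) - (1 + δ) * (γ * (δ / 8)) := by ring
    rw [h5, hinv]
    have h6 : γ * (δ / 8) ≤ 2 * (δ / 8) := mul_le_mul_of_nonneg_right γ2 (by positivity)
    have h7 : (1 + δ) * (γ * (δ / 8)) ≤ (1 + δ) * (2 * (δ / 8)) :=
      mul_le_mul_of_nonneg_left h6 (by positivity)
    nlinarith
  have h8 : n * (σ * (1 + δ / 8)) ≤ n * (σ * (γ * (1 + δ) * (ρ - δ / 8))) := by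
    apply mul_le_mul_of_nonneg_left _ hn.le
    exact mul_le_mul_of_nonneg_left h4 hσ.le
  refine le_trans h8 (le_of_eq ?_)
  ring

/-- edges between `O` and the blocks which are not flexible -/
theorem Q_O (hE : Env X M C ζ θ c) (hN : Num X.d c σ1) (hg : 2 ≤ g) (hσ1 : 0 < σ1) (hσ : σ1 ≤ σ)
    (hσ' : σ ≤ 1) (hO : OffH X c ε (off k)) (hF : LabF X Ty gr c σ ε ε' off L w')
    (hA : X.Th.Adj v y) (hf : ¬ (X.fl Ty gr c v y ∨ X.fl Ty gr c y v))
    (hv : X.bl v = none) (hy : X.bl y = some b) :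
    Q X Ty gr c σ L k v y (X.wt Ty gr c σ ε' off L w' k v y) := by
  have hσ0 : 0 < σ := by linarith
  have hδ0 : (0 : ℝ) ≤ (X.d : ℝ) ^ (-(c / 60)) := by positivity
  have hδ1 := hN.n1
  have hκ := hN.n2
  obtain ⟨γ1, γ2⟩ := gam hg
  have hvty : ¬ X.ty Ty v := fun h => ty_bl h hv
  have hvak : X.ak Ty L k v := ak_nty hvty
  rw [wt_on hA hf hv hy]
  by_cases hfat : X.fat c v b
  · rw [if_pos hfat]
    have htg := tg_bd (b := b) hN hσ1 hσ hσ' hv hO hF
    by_cases hak : X.ak Ty L k y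
    · rw [if_pos hak]
      have hn : 0 < X.n v b := lt_of_lt_of_le
        (Real.rpow_pos_of_pos (by linarith [hN.d1]) _) hfat
      have hna1 : 0 < X.na Ty L k v b := by
        unfold Dat.na
        have : y ∈ (nb X.G v).filter (fun v => X.bl v = some b ∧ X.ak Ty L k v) :=
          Finset.mem_filter.2 ⟨mem_nb.2 ((th_iff hE hv).1 hA), hy, hak⟩
        exact_mod_cast Finset.card_pos.2 ⟨y, this⟩
      have hlow : σ / 2 ≤ X.tg Ty c σ off L k v b / X.na Ty L k v b := by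
        rw [le_div_iff₀ hna1]
        refine le_trans ?_ htg.1
        have h1 : σ / 2 * X.na Ty L k v b ≤ σ / 2 * X.n v b :=
          mul_le_mul_of_nonneg_left na_le (by positivity)
        refine le_trans h1 ?_
        rw [mul_comm]
        apply mul_le_mul_of_nonneg_left _ hn.le
        nlinarith
      refine ⟨by linarith, fun h => absurd hvak h, fun h => absurd hak h, ?_, fun h => absurd h hvty,
        ?_, fun h => absurd h hvty, fun h => absurd h hvty, fun _ _ _ => hlow,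
        fun b1 _ h1 => absurd h1 (by rw [hv]; simp)⟩
      · intro _ h2
        rw [ty_iff hy] at h2
        rw [na_nty h2, div_le_iff₀ hn]
        refine le_trans htg.2 ?_
        rw [mul_comm]
        apply mul_le_mul_of_nonneg_right _ hn.le
        apply mul_le_mul_of_nonneg_left _ hσ0.le
        linarith
      · intro _ h2
        rw [ty_iff hy] at h2
        exact ub hg hσ0 hδ0 hδ1 hκ hn (hF.fat k v b hv hfat h2) htg.2
    · rw [if_neg hak]
      have hyty : X.ty Ty y := by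
        by_contra h
        exact hak (ak_nty h)
      refine ⟨le_refl _, fun h => rfl, fun h => rfl, ?_, fun h => absurd h hvty,
        ?_, fun h => absurd h hvty, fun h => absurd h hvty, fun _ h => absurd h hak,
        fun b1 _ h1 => absurd h1 (by rw [hv]; simp)⟩
      · intro _ h2
        exact absurd hyty h2
      · intro _ _
        positivity
  · rw [if_neg hfat]
    have m0 : 0 ≤ X.mv Ty L k y := mv_nonneg hg
    have m1 : X.mv Ty L k y ≤ (g : ℝ) / (g - 1) := mv_le hg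
    refine ⟨by positivity, fun h => absurd hvak h, fun h => by rw [mv_nak h, mul_zero], ?_,
      fun h => absurd h hvty, ?_, fun h => absurd h hvty, fun h => absurd h hvty, ?_,
      fun b1 _ h1 => absurd h1 (by rw [hv]; simp)⟩
    · intro _ h2
      rw [mv_nty h2]
      nlinarith
    · intro _ _
      have h3 : σ * X.mv Ty L k y ≤ (g : ℝ) / (g - 1) * σ := by
        rw [mul_comm]
        exact mul_le_mul_of_nonneg_right m1 hσ0.le
      have h4 : 0 ≤ (g : ℝ) / (g - 1) * σ := by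
        have : 0 ≤ (g : ℝ) / (g - 1) := by linarith
        positivity
      nlinarith
    · intro _ h2 _
      have := one_le_mv hg h2
      nlinarith

/-! ### pairs of blocks -/

theorem eu_nty (h1 : ¬ Ty (X.kd b)) (h2 : ¬ Ty (X.kd b')) : X.eu Ty gr L k b b' = X.e b b' := by
  rw [e_eq]
  unfold Dat.eu
  apply Finset.sum_congr rfl
  intro v hv
  congr 2
  ext w
  rw [Finset.mem_filter, Finset.mem_filter]
  constructor
  · exact fun h => ⟨h.1, h.2.1⟩
  · intro h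
    have hv1 : ¬ X.ty Ty v := by
      rw [ty_iff (mem_blk.1 hv)]
      exact h1
    have hw1 : ¬ X.ty Ty w := by
      rw [ty_iff (mem_blk.1 h.1)]
      exact h2
    exact ⟨h.1, h.2, ak_nty hv1, ak_nty hw1, fun h3 => absurd h3 hv1⟩

theorem nrm_S (h : X.nrm Ty c ε' b b') : X.kd b = Kd.S ∨ X.kd b' = Kd.S := h.1

/-- normalised pairs, the larger bound -/
theorem eu_both (hF : LabF X Ty gr c σ ε ε' off L w') (h : X.nrm Ty c ε' b b')
    (h1 : Ty (X.kd b)) (h2 : Ty (X.kd b')) : X.e b b' / 32 ≤ X.eu Ty gr L k b b' := by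
  obtain ⟨-, ⟨h3, h4⟩ | ⟨h3, -, -, h4⟩⟩ := h
  · have h5 : (X.d : ℝ) ^ (1 - 3 * c / 4) ≤ X.e b b' := by
      by_contra hcon
      exact h4 ⟨h3, not_le.1 hcon⟩
    exact hF.th2 k b b' h3 h5 h1 h2
  · exact hF.in2 k b b' h3 h1 h2 h4

theorem eu_one (hF : LabF X Ty gr c σ ε ε' off L w') (h : X.nrm Ty c ε' b b')
    (h1 : Ty (X.kd b)) (h2 : ¬ Ty (X.kd b')) :
    |X.eu Ty gr L k b b' - ((g : ℝ) - 1) / g * X.e b b'| ≤ (X.d : ℝ) ^ (-(c / 40)) * X.e b b' := by
  obtain ⟨-, ⟨h3, h4⟩ | ⟨h3, -, h5, h4⟩⟩ := h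
  · have h5 : (X.d : ℝ) ^ (1 - 3 * c / 4) ≤ X.e b b' := by
      by_contra hcon
      exact h4 ⟨h3, not_le.1 hcon⟩
    exact hF.th1 k b b' h3 h5 h1 h2
  · exact absurd h5 h2

/-- edges between blocks which are not flexible -/
theorem Q_L (hN : Num X.d c σ1) (hg : 2 ≤ g) (hσ : 0 < σ) (hε : ε' ≤ 1)
    (hF : LabF X Ty gr c σ ε ε' off L w')
    (hA : X.Th.Adj v y) (hf : ¬ (X.fl Ty gr c v y ∨ X.fl Ty gr c y v))
    (hv : X.bl v = some b) (hy : X.bl y = some b') :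
    Q X Ty gr c σ L k v y (X.wt Ty gr c σ ε' off L w' k v y) := by
  have hδ0 : (0 : ℝ) ≤ (X.d : ℝ) ^ (-(c / 60)) := by positivity
  have hδ1 := hN.n1
  have hκ := hN.n2
  have hd1 := hN.d1
  obtain ⟨γ1, γ2⟩ := gam hg
  rw [wt_ll hA hf hv hy]
  by_cases hn : X.nrm Ty c ε' b b'
  · rw [if_pos hn]
    by_cases hu : X.us Ty gr L k v y
    · rw [if_pos hu]
      have heu : 0 < X.eu Ty gr L k b b' := eu_pos hv hy hu
      have hle : X.eu Ty gr L k b b' ≤ X.e b b' := eu_le_e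
      have he : 0 < X.e b b' := lt_of_lt_of_le heu hle
      have hlow : σ ≤ σ * X.e b b' / X.eu Ty gr L k b b' := by
        rw [le_div_iff₀ heu]
        exact mul_le_mul_of_nonneg_left hle hσ.le
      have hT : σ * X.e b b' ≤ X.e b b' * (σ * (1 + (X.d : ℝ) ^ (-(c / 60)) / 8)) := by
        rw [mul_comm]
        apply mul_le_mul_of_nonneg_left _ he.le
        nlinarith
      refine ⟨by linarith, fun h => absurd hu.2.1 h, fun h => absurd hu.2.2.1 h, ?_, ?_, ?_, ?_, ?_,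
        fun _ _ _ => by linarith, fun _ _ _ _ _ _ _ _ => by linarith⟩
      · intro h1 h2
        rw [ty_iff hv] at h1
        rw [ty_iff hy] at h2
        rw [eu_nty h1 h2, mul_div_assoc, div_self he.ne']
        nlinarith
      · intro h1 h2
        rw [ty_iff hv] at h1
        rw [ty_iff hy] at h2
        exact ub hg hσ hδ0 hδ1 hκ he (eu_one hF hn h1 h2) hT
      · intro h1 h2
        rw [ty_iff hv] at h1
        rw [ty_iff hy] at h2
        have h3 := eu_one (k := k) hF (nrm_iff.1 hn) h2 h1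
        rw [eu_comm, e_comm (b := b') (b' := b)] at h3
        exact ub hg hσ hδ0 hδ1 hκ he h3 hT
      · intro h1 h2
        rw [ty_iff hv] at h1
        rw [ty_iff hy] at h2
        have h3 := eu_both (k := k) hF hn h1 h2
        rw [div_le_iff₀ heu]
        nlinarith
      · intro _ _ h1 h2
        rcases hn.1 with h3 | h3
        · exact absurd h3 (rw_none hv h1)
        · exact absurd h3 (rw_none hy h2)
    · rw [if_neg hu]
      refine ⟨le_refl _, fun _ => rfl, fun _ => rfl, fun _ _ => by positivity, ?_, ?_,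
        fun _ _ => by positivity, fun _ _ _ _ => hσ.le, ?_, ?_⟩
      · intro _ _
        have : 0 ≤ (g : ℝ) / (g - 1) := by linarith
        positivity
      · intro _ _
        have : 0 ≤ (g : ℝ) / (g - 1) := by linarith
        positivity
      · intro h1 h2 h3
        exact absurd ⟨hA, h1, h2, fun h4 h5 => absurd ⟨h4, h5⟩ h3⟩ hu
      · intro _ _ _ _ h1 h2 h3 _
        exact absurd ⟨hA, h1, h2, fun _ _ => h3⟩ hu
  rw [if_neg hn]
  by_cases hz : X.zer Ty ε' b b'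
  · rw [if_pos hz]
    obtain ⟨hz1, hz2, hz3, hz4, hz5⟩ := hz
    have t1 : X.ty Ty v := (ty_iff hv).2 hz3
    have t2 : X.ty Ty y := (ty_iff hy).2 hz4
    refine ⟨le_refl _, fun _ => rfl, fun _ => rfl, fun h => absurd t1 h, fun _ h => absurd t2 h,
      fun h => absurd t1 h, fun _ _ => by positivity, fun _ _ _ _ => hσ.le,
      fun _ _ h => absurd ⟨t1, t2⟩ h, ?_⟩
    intro b1 b2 h1 h2 _ _ _ h3
    rw [hv] at h1
    rw [hy] at h2
    cases h1
    cases h2
    have h4 := h3 hz2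
    exfalso
    nlinarith
  rw [if_neg hz]
  by_cases ht : X.tp c b b' ∧ (X.kd b = Kd.S ∨ X.kd b' = Kd.S)
  · rw [if_pos ht]
    have hcl : X.ty Ty v ∧ X.ty Ty y ∧ gr v = gr y := by
      by_contra hcon
      exact hf (Or.inl (Or.inr ⟨hA, ⟨b, b', hv, hy, ht.1, ht.2⟩, hcon⟩))
    refine ⟨le_refl _, fun _ => rfl, fun _ => rfl, fun h => absurd hcl.1 h,
      fun _ h => absurd hcl.2.1 h, fun h => absurd hcl.1 h, fun _ _ => by positivity,
      fun _ _ _ _ => hσ.le, fun _ _ h => absurd ⟨hcl.1, hcl.2.1⟩ h, ?_⟩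
    intro _ _ _ _ _ _ h _
    exact absurd hcl.2.2 h
  rw [if_neg ht]
  by_cases hS : X.kd b = Kd.S ∨ X.kd b' = Kd.S
  · rw [if_pos hS]
    have m1 : 0 ≤ X.mv Ty L k v := mv_nonneg hg
    have m2 : 0 ≤ X.mv Ty L k y := mv_nonneg hg
    have m1' : X.mv Ty L k v ≤ (g : ℝ) / (g - 1) := mv_le hg
    have m2' : X.mv Ty L k y ≤ (g : ℝ) / (g - 1) := mv_le hg
    have hlow : X.ak Ty L k v → X.ak Ty L k y → σ / 2 ≤ σ * X.mv Ty L k v * X.mv Ty L k y := by
      intro h1 h2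
      have a1 := one_le_mv hg h1
      have a2 := one_le_mv hg h2
      have a3 : 1 ≤ X.mv Ty L k v * X.mv Ty L k y := one_le_mul_of_one_le_of_one_le a1 a2
      rw [mul_assoc]
      nlinarith
    refine ⟨by positivity, fun h => by rw [mv_nak h, mul_zero, zero_mul],
      fun h => by rw [mv_nak h, mul_zero], ?_, ?_, ?_, ?_, ?_, fun h1 h2 _ => hlow h1 h2,
      fun _ _ _ _ h1 h2 _ _ => hlow h1 h2⟩
    · intro h1 h2
      rw [mv_nty h1, mv_nty h2]
      nlinarith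
    · intro h1 h2
      rw [mv_nty h2, mul_one]
      have h3 : σ * X.mv Ty L k v ≤ (g : ℝ) / (g - 1) * σ := by
        rw [mul_comm]
        exact mul_le_mul_of_nonneg_right m1' hσ.le
      have h4 : 0 ≤ (g : ℝ) / (g - 1) * σ := by
        have : 0 ≤ (g : ℝ) / (g - 1) := by linarith
        positivity
      nlinarith
    · intro h1 h2
      rw [mv_nty h1, mul_one]
      have h3 : σ * X.mv Ty L k y ≤ (g : ℝ) / (g - 1) * σ := by
        rw [mul_comm]
        exact mul_le_mul_of_nonneg_right m2' hσ.le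
      have h4 : 0 ≤ (g : ℝ) / (g - 1) * σ := by
        have : 0 ≤ (g : ℝ) / (g - 1) := by linarith
        positivity
      nlinarith
    · intro _ _
      have a1 : X.mv Ty L k v * X.mv Ty L k y ≤ 4 := by nlinarith
      rw [mul_assoc]
      nlinarith
    · intro _ _ h1 h2
      rcases hS with h3 | h3
      · exact absurd h3 (rw_none hv h1)
      · exact absurd h3 (rw_none hy h2)
  · rw [if_neg hS]
    by_cases ha : X.ak Ty L k v ∧ X.ak Ty L k y
    · rw [if_pos ha]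
      refine ⟨hσ.le, fun h => absurd ha.1 h, fun h => absurd ha.2 h, ?_, ?_, ?_, ?_, ?_, ?_, ?_⟩
      · intro _ _
        nlinarith
      · intro _ _
        have h4 : σ ≤ (g : ℝ) / (g - 1) * σ := by nlinarith
        nlinarith
      · intro _ _
        have h4 : σ ≤ (g : ℝ) / (g - 1) * σ := by nlinarith
        nlinarith
      · intro _ _
        linarith
      · intro _ _ _ _
        exact le_refl _
      · intro _ _ _
        linarith
      · intro _ _ _ _ _ _ _ _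
        linarith
    · rw [if_neg ha]
      refine ⟨le_refl _, fun _ => rfl, fun _ => rfl, fun _ _ => by positivity, ?_, ?_,
        fun _ _ => by positivity, fun _ _ _ _ => hσ.le, fun h1 h2 => absurd ⟨h1, h2⟩ ha,
        fun _ _ _ _ h1 h2 => absurd ⟨h1, h2⟩ ha⟩
      · intro _ _
        have : 0 ≤ (g : ℝ) / (g - 1) := by linarith
        positivity
      · intro _ _
        have : 0 ≤ (g : ℝ) / (g - 1) := by linarith
        positivity

/-- all pairs -/
theorem Q_all (hE : Env X M C ζ θ c) (hN : Num X.d c σ1) (hg : 2 ≤ g) (hσ1 : 0 < σ1) (hσ : σ1 ≤ σ)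
    (hσ' : σ ≤ 1) (hε : ε' ≤ 1) (hO : OffH X c ε (off k)) (hF : LabF X Ty gr c σ ε ε' off L w')
    (hA : X.Th.Adj v y) (hb : ¬ (X.bl v = none ∧ X.bl y = none)) :
    Q X Ty gr c σ L k v y (X.wt Ty gr c σ ε' off L w' k v y) := by
  have hσ0 : 0 < σ := by linarith
  by_cases hf : X.fl Ty gr c v y ∨ X.fl Ty gr c y v
  · rw [wt_fl hA hf]
    rcases hf with hf | hf
    · exact Q_fl hN hg hσ0 hf (hF.wf k v y hf)
    · rw [Sym2.eq_swap]
      exact (Q_fl hN hg hσ0 hf (hF.wf k y v hf)).symm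
  · rcases hv : X.bl v with _ | b <;> rcases hy : X.bl y with _ | b'
    · exact absurd ⟨hv, hy⟩ hb
    · exact Q_O hE hN hg hσ1 hσ hσ' hO hF hA hf hv hy
    · rw [wt_symm]
      exact (Q_O hE hN hg hσ1 hσ hσ' hO hF hA.symm (fun h => hf h.symm) hy hv).symm
    · exact Q_L hN hg hσ0 hε hF hA hf hv hy

end

theorem stmt_FPT : Stmt_FPT.{u} := by
  intro g M C σ1 ε ε' c hg hC hσ1 hε hε' hc hc1
  obtain ⟨d0, hd0⟩ := num_large c σ1 hc hc1 hσ1
  refine ⟨d0, ?_⟩
  intro W B _ _ X Ty gr σ off L w' hd hσ hσ' hE hT hO hF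
  have hN := hd0 X.d hd
  have hg2 : 2 ≤ g := by omega
  have hσ0 : 0 < σ := by linarith
  obtain ⟨γ1, γ2⟩ := gam hg2
  have hγ0 : 0 ≤ (g : ℝ) / (g - 1) := by linarith
  have hδ0 : (0 : ℝ) ≤ (X.d : ℝ) ^ (-(c / 60)) := by positivity
  have z : ∀ k v w, ¬ X.Th.Adj v w ∨ (X.bl v = none ∧ X.bl w = none) →
      X.wt Ty gr c σ ε' off L w' k v w = 0 := by
    rintro k v w (h | ⟨h1, h2⟩)
    · exact wt_nadj h
    · exact wt_none h1 h2
  have q : ∀ k v w, X.Th.Adj v w → ¬ (X.bl v = none ∧ X.bl w = none) →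
      Q X Ty gr c σ L k v w (X.wt Ty gr c σ ε' off L w' k v w) := fun k v w h1 h2 =>
    Q_all hE hN hg2 hσ1 hσ hσ' hε' (hO k) hF h1 h2
  have cs : ∀ v w, (¬ X.Th.Adj v w ∨ (X.bl v = none ∧ X.bl w = none)) ∨
      (X.Th.Adj v w ∧ ¬ (X.bl v = none ∧ X.bl w = none)) := by
    intro v w
    tauto
  refine ⟨?_, ?_, ?_, ?_, ?_, ?_, ?_, ?_, ?_, ?_⟩
  · intro k v w
    exact wt_symm
  · intro k v w
    rcases cs v w with h | h
    · rw [z k v w h]
    · exact (q k v w h.1 h.2).nn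
  · intro k v w h
    rcases cs v w with h1 | h1
    · exact absurd (z k v w h1) h
    · exact h1
  · intro k v w h1 h2
    rcases cs v w with h | h
    · exact z k v w h
    · exact (q k v w h.1 h.2).z1 fun h3 => h3 h1 h2
  · intro k v w h1 h2
    rcases cs v w with h | h
    · rw [z k v w h]
      positivity
    · exact (q k v w h.1 h.2).a0 h1 h2
  · intro k v w h1 h2
    rcases cs v w with h | h
    · rw [z k v w h]
      positivity
    · exact (q k v w h.1 h.2).a1 h1 h2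
  · intro k v w h1 h2
    rcases cs v w with h | h
    · rw [z k v w h]
      positivity
    · exact (q k v w h.1 h.2).a2 h1 h2
  · intro k v w h1 h2 h3 h4
    rcases cs v w with h | h
    · rw [z k v w h]
      exact hσ0.le
    · exact (q k v w h.1 h.2).a3 h1 h2 h3 h4
  · intro k v w h1 h2 h3 h4 h5
    exact (q k v w h1 h2).l1 h3 h4 h5
  · intro k v w b b' h1 h2 h3 h4 h5 h6 h7
    exact (q k v w h1 (by rw [h2]; simp)).l2 b b' h2 h3 h4 h5 h6 h7

end Pool.Agent.Work.MP_db9399_ts_helper32
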